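import Mathlib
import Pool.Agent.helper18.Rot.SymDefs
import Pool.Agent.helper54.Rot.Comb
import Pool.Agent.helper18.Rot.SymDefs2
import Pool.Agent.helper61.Rot.Block

/-!
# mod:eq — equidistribution inside a block of level `k`
-/

open Topology Filter Set

namespace Pool.Agent.helper30.Rot

open Pool.Agent.helper18.Rot Pool.Agent.helper18.Rot.Sym

/-- number of visits to the sheets in a block of level `k` of type `t` -/
def V : ℕ → Letter → Ga → ℕ
  | 0, t, g => if g = ph t then 1 else 0
  | k + 1, t, g => ∑ i ∈ Finset.range (nt k t), V k (sub k t i) (g - Lb k t i)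

theorem sum_V (k : ℕ) (t : Letter) : ∑ g, V k t g = len k t := by
  induction k generalizing t with
  | zero => simp [V, len]
  | succ k ih =>
    simp only [V, len]
    rw [Finset.sum_comm]
    apply Finset.sum_congr rfl
    intro i _
    rw [← ih (sub k t i)]
    exact Fintype.sum_equiv (Equiv.subRight (Lb k t i)) _ _ fun g => rfl

/-! ### counting windows -/

theorem tm_succ (k : ℕ) (t : Letter) (i : ℕ) : tm k t (i + 1) = tm k t i + len k (sub k t i) := by
  simp [tm, Finset.sum_range_succ]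

theorem tm_zero (k : ℕ) (t : Letter) : tm k t 0 = 0 := by simp [tm]

theorem tm_nt (k : ℕ) (t : Letter) : tm k t (nt k t) = len (k + 1) t := rfl

theorem tm_mono (k : ℕ) (t : Letter) : Monotone (tm k t) :=
  monotone_nat_of_le_succ fun i => by rw [tm_succ]; omega

theorem cw_zero (P : Par) (x : ℝ) (p : ℕ) (g : Ga) : cw P x p p g = 0 := by simp [cw]

/-- window inside a sub-block -/
theorem cw_sub (E : Data) (k : ℕ) {y : ℝ} (h0 : 0 ≤ y) (h1 : y < 1) {i : ℕ}
    (hi : i < nt k (E.typ (k + 1) y)) (p q : ℕ) (g : Ga) :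
    cw E.par (E.w (k + 1) * y) (tm k (E.typ (k + 1) y) i + p) (tm k (E.typ (k + 1) y) i + q) g =
      cw E.par (E.w k * ((y + i) * E.al k)) p q (g - Lb k (E.typ (k + 1) y) i) := by
  rw [helper61.Rot.cw_shift]
  obtain ⟨e1, e2⟩ := helper61.Rot.block_mid E k h0 h1 hi
  rw [e1, e2]

theorem cw_full (E : Data) (k : ℕ) {y : ℝ} (h0 : 0 ≤ y) (h1 : y < 1) (g : Ga) :
    cw E.par (E.w k * y) 0 (len k (E.typ k y)) g = V k (E.typ k y) g := by
  induction k generalizing y g with
  | zero =>
    have e : len 0 (E.typ 0 y) = 1 := rfl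
    rw [e]
    have hw : E.w 0 = 1 := by simp [Data.w]
    rw [hw, one_mul]
    unfold cw V
    have hL : E.par.Lab y 1 = ph (E.typ 0 y) := by
      rw [← helper61.Rot.inc_eq E h0]
      simp only [Par.Lab, Finset.sum_range_one, Par.orb]
      congr 1
      rw [Nat.cast_zero, zero_mul, add_zero]
      exact Int.fract_eq_self.2 ⟨h0, h1⟩
    by_cases hg : g = ph (E.typ 0 y)
    · rw [if_pos hg, hg]
      have : (Finset.Ico 0 1).filter (fun i => E.par.Lab y (i + 1) = ph (E.typ 0 y)) = {0} := by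
        ext i
        simp only [Finset.mem_filter, Finset.mem_Ico, Finset.mem_singleton]
        constructor
        · rintro ⟨⟨_, h⟩, _⟩
          omega
        · rintro rfl
          exact ⟨⟨le_rfl, one_pos⟩, hL⟩
      rw [this]
      rfl
    · rw [if_neg hg]
      rw [Finset.card_eq_zero, Finset.filter_eq_empty_iff]
      intro i hi
      rw [Finset.mem_Ico] at hi
      have : i = 0 := by omega
      subst this
      rw [zero_add, hL]
      exact fun h => hg h.symm
  | succ k ih =>
    have key : ∀ n ≤ nt k (E.typ (k + 1) y),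
        cw E.par (E.w (k + 1) * y) 0 (tm k (E.typ (k + 1) y) n) g =
          ∑ i ∈ Finset.range n, V k (sub k (E.typ (k + 1) y) i) (g - Lb k (E.typ (k + 1) y) i) := by
      intro n hn
      induction n with
      | zero => rw [tm_zero, cw_zero, Finset.sum_range_zero]
      | succ n ihn =>
        rw [helper61.Rot.cw_add E.par _ (Nat.zero_le (tm k (E.typ (k + 1) y) n))
          (tm_mono k _ (Nat.le_succ n)), ihn (by omega), Finset.sum_range_succ]
        congr 1
        have hlt : n < nt k (E.typ (k + 1) y) := by omega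
        obtain ⟨a1, a2, a3, -, -⟩ := helper61.Rot.typ_tower E k h0 h1 hlt
        have h := cw_sub E k h0 h1 hlt 0 (len k (sub k (E.typ (k + 1) y) n)) g
        rw [add_zero, ← tm_succ] at h
        rw [h, ← a3, ih a1 a2]
    have := key _ le_rfl
    rw [tm_nt] at this
    rw [this]
    rfl

/-! ### distributions -/

theorem gR_le (k : ℕ) (t : Letter) : gR k t ≤ HH k + 1 := (helper54.Rot.gR_lt k t).2.1

theorem gR_lt_nt (k : ℕ) (t : Letter) : gR k t + 2 < nt k t := (helper54.Rot.gR_lt k t).2.2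

theorem len_le3 (k : ℕ) (t : Letter) : len k t ≤ len k 3 := by
  by_cases h : t = 4
  · rw [h]; exact helper54.Rot.len_four_le k
  · rw [helper54.Rot.len_of_ne k h]

theorem sub_late (k : ℕ) (t : Letter) {i : ℕ} (h : gR k t ≤ i) :
    sub k t i = if i + 1 < nt k t then 3 else 4 := by
  have h1 : 3 * mA k + eA t ≤ gR k t := by
    unfold eA gR
    split_ifs with h1 h2 h2 <;> first | omega | (exfalso; simp_all)
  have h2 : gB k t ≤ gR k t := by
    unfold gB gR
    split_ifs with h1 h2 h2 <;> first | omega | (exfalso; simp_all; try tauto)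
  unfold sub
  rw [if_neg (by omega), if_neg (by omega), if_neg (by omega)]

theorem ph3 : ph 3 = 0 := by simp [ph]
theorem ph4 : ph 4 = 0 := by simp [ph]

theorem Lb_late (k : ℕ) (t : Letter) {i : ℕ} (h : gR k t ≤ i) (hi : i ≤ nt k t) :
    Lb k t i = ph t := by
  have hnt := helper54.Rot.Lb_nt k t
  -- all letters from `i` on have `ph = 0`
  have : ∀ n, i ≤ n → n ≤ nt k t → Lb k t n = Lb k t i := by
    intro n hin
    induction n, hin using Nat.le_induction with
    | base => intro _; rfl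
    | succ n hin ih =>
      intro hn
      have e : Lb k t (n + 1) = Lb k t n + ph (sub k t n) := by
        simp [Lb, Finset.sum_range_succ]
      rw [e, ih (by omega), sub_late k t (h.trans hin)]
      split_ifs
      · rw [ph3, add_zero]
      · rw [ph4, add_zero]
  rw [← this _ hi le_rfl, hnt]

/-- `ℓ¹`-bound for two nonnegative vectors of the same mass -/
theorem l1_le {a b : Ga → ℝ} {m : ℝ} (ha : ∀ g, 0 ≤ a g) (hb : ∀ g, 0 ≤ b g) (hsa : ∑ g, a g = m)
    (hsb : ∑ g, b g = m) : ∑ g, |a g - b g| ≤ 2 * m := by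
  calc ∑ g, |a g - b g| ≤ ∑ g, (a g + b g) := by
        apply Finset.sum_le_sum
        intro g _
        rw [abs_le]
        constructor <;> linarith [ha g, hb g]
    _ = 2 * m := by rw [Finset.sum_add_distrib, hsa, hsb]; ring

noncomputable def th (k : ℕ) (g : Ga) : ℝ := V k 3 g / len k 3

theorem len3_pos (k : ℕ) : (0 : ℝ) < len k 3 := by exact_mod_cast helper54.Rot.len_pos k 3

theorem th_nonneg (k : ℕ) (g : Ga) : 0 ≤ th k g := div_nonneg (Nat.cast_nonneg _) (Nat.cast_nonneg _)

theorem sum_th (k : ℕ) : ∑ g, th k g = 1 := by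
  unfold th
  rw [← Finset.sum_div, ← Nat.cast_sum, sum_V, div_self (len3_pos k).ne']

theorem V_succ_dev (k : ℕ) (t : Letter) :
    ∑ g, |(V (k + 1) t (g + ph t) : ℝ) - len (k + 1) t * th k g| ≤
      2 * (HH k + 2) * len k 3 := by
  have hnt := gR_lt_nt k t
  -- contribution of each sub-block
  have e : ∀ g, (V (k + 1) t (g + ph t) : ℝ) - len (k + 1) t * th k g =
      ∑ i ∈ Finset.range (nt k t), ((V k (sub k t i) (g + ph t - Lb k t i) : ℝ) -
        len k (sub k t i) * th k g) := by
    intro g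
    rw [Finset.sum_sub_distrib, ← Finset.sum_mul]
    simp only [V, len]
    push_cast
    ring
  have hc : ∀ i ∈ Finset.range (nt k t),
      ∑ g, |(V k (sub k t i) (g + ph t - Lb k t i) : ℝ) - len k (sub k t i) * th k g| ≤
        if i < gR k t ∨ i + 1 = nt k t then 2 * (len k 3 : ℝ) else 0 := by
    intro i hi
    rw [Finset.mem_range] at hi
    split_ifs with h
    · have hmass : ∑ g, (V k (sub k t i) (g + ph t - Lb k t i) : ℝ) = len k (sub k t i) := by
        rw [← Nat.cast_sum, ← sum_V k (sub k t i)]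
        congr 1
        exact Fintype.sum_equiv (Equiv.addRight (ph t - Lb k t i)) _ _ fun g => by
          simp [add_sub_assoc]
      have := l1_le (m := (len k (sub k t i) : ℝ))
        (a := fun g => (V k (sub k t i) (g + ph t - Lb k t i) : ℝ))
        (b := fun g => len k (sub k t i) * th k g) (fun g => Nat.cast_nonneg _)
        (fun g => mul_nonneg (Nat.cast_nonneg _) (th_nonneg k g)) hmass
        (by rw [← Finset.mul_sum, sum_th, mul_one])
      have h2 : (len k (sub k t i) : ℝ) ≤ len k 3 := by exact_mod_cast len_le3 k _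
      linarith
    · push Not at h
      have hs : sub k t i = 3 := by
        rw [sub_late k t h.1, if_pos (by omega)]
      have hl := Lb_late k t h.1 hi.le
      rw [hs, hl]
      apply le_of_eq
      apply Finset.sum_eq_zero
      intro g _
      rw [add_sub_cancel_right]
      unfold th
      rw [mul_div_cancel₀ _ (len3_pos k).ne', sub_self, abs_zero]
  calc ∑ g, |(V (k + 1) t (g + ph t) : ℝ) - len (k + 1) t * th k g|
      ≤ ∑ g, ∑ i ∈ Finset.range (nt k t), |(V k (sub k t i) (g + ph t - Lb k t i) : ℝ) -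
        len k (sub k t i) * th k g| := by
        apply Finset.sum_le_sum
        intro g _
        rw [e g]
        exact Finset.abs_sum_le_sum_abs _ _
    _ = ∑ i ∈ Finset.range (nt k t), ∑ g, |(V k (sub k t i) (g + ph t - Lb k t i) : ℝ) -
        len k (sub k t i) * th k g| := Finset.sum_comm
    _ ≤ ∑ i ∈ Finset.range (nt k t), if i < gR k t ∨ i + 1 = nt k t then 2 * (len k 3 : ℝ) else 0 :=
        Finset.sum_le_sum hc
    _ = ((Finset.range (nt k t)).filter (fun i => i < gR k t ∨ i + 1 = nt k t)).card *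
        (2 * (len k 3 : ℝ)) := by
        rw [← Finset.sum_filter, Finset.sum_const, nsmul_eq_mul]
    _ ≤ ((HH k + 2 : ℕ) : ℝ) * (2 * (len k 3 : ℝ)) := by
        apply mul_le_mul_of_nonneg_right _ (by positivity)
        have hsub : (Finset.range (nt k t)).filter (fun i => i < gR k t ∨ i + 1 = nt k t) ⊆
            insert (nt k t - 1) (Finset.range (gR k t)) := by
          intro i hi
          rw [Finset.mem_filter, Finset.mem_range] at hi
          rw [Finset.mem_insert, Finset.mem_range]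
          omega
        have h1 := Finset.card_le_card hsub
        have h2 := Finset.card_insert_le (nt k t - 1) (Finset.range (gR k t))
        rw [Finset.card_range] at h2
        have h3 := gR_le k t
        exact_mod_cast (by omega : _ ≤ HH k + 2)
    _ = 2 * (HH k + 2) * len k 3 := by push_cast; ring

/-- `b k - b (k+1)` bounds the relative deviation at level `k + 1` -/
noncomputable def bb (k : ℕ) : ℝ := 1 / (4 * ((k : ℝ) + 1))

theorem bb_pos (k : ℕ) : 0 < bb k := by unfold bb; positivity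

theorem NN_big (k : ℕ) : 16 * (k + 2) ^ 2 * (HH k + 2) + 2 ≤ NN k := by
  have h1 : HH k ≤ 12 * (k + 1) ^ 2 := by
    rw [helper54.Rot.HH_eq]
    have := helper54.Rot.jj_le k
    nlinarith
  have e : NN k = 1000 * (k + 2) ^ 8 := rfl
  have e2 : (k + 2) ^ 2 = (k + 1) ^ 2 + 2 * (k + 1) + 1 := by ring
  have h2 : HH k + 2 ≤ 14 * (k + 2) ^ 2 := by rw [e2]; omega
  have h3 : 16 * (k + 2) ^ 2 * (HH k + 2) ≤ 16 * (k + 2) ^ 2 * (14 * (k + 2) ^ 2) :=
    Nat.mul_le_mul_left _ h2
  have h4 : 16 * (k + 2) ^ 2 * (14 * (k + 2) ^ 2) = 224 * (k + 2) ^ 4 := by ring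
  have h5 : (k + 2) ^ 4 ≤ (k + 2) ^ 8 := Nat.pow_le_pow_right (by omega) (by omega)
  have h6 : 1 ≤ (k + 2) ^ 8 := Nat.one_le_pow _ _ (by omega)
  rw [e]
  omega

attribute [local irreducible] NN

theorem len_succ_ge (k : ℕ) (t : Letter) :
    (16 * ((k : ℝ) + 2) ^ 2 * (HH k + 2)) * len k 3 ≤ len (k + 1) t := by
  have h1 : len (k + 1) 4 ≤ len (k + 1) t := by
    by_cases h : t = 4
    · rw [h]
    · rw [helper54.Rot.len_of_ne (k + 1) h]
      exact helper54.Rot.len_four_le (k + 1)
  have a3 := NN_big k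
  have h2 : (NN k - 2) * len k 3 ≤ len (k + 1) 4 := by
    have a1 := helper54.Rot.len_succ_three k
    have a2 := helper54.Rot.len_succ_four k
    have e : NN k - 1 = (NN k - 2) + 1 := by omega
    rw [e, add_mul] at a1
    omega
  have h3 : (16 * (k + 2) ^ 2 * (HH k + 2)) * len k 3 ≤ (NN k - 2) * len k 3 :=
    Nat.mul_le_mul_right _ (by omega)
  exact_mod_cast h3.trans (h2.trans h1)

theorem HH_ge (k : ℕ) : 12 ≤ HH k := by
  rw [helper54.Rot.HH_eq]
  have : 1 ≤ jj k := by unfold jj; omega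
  nlinarith

theorem V_succ_rel (k : ℕ) (t : Letter) :
    ∑ g, |(V (k + 1) t (g + ph t) : ℝ) - len (k + 1) t * th k g| ≤
      (bb k - bb (k + 1)) * len (k + 1) t := by
  refine (V_succ_dev k t).trans ?_
  have h := len_succ_ge k t
  have hb : bb k - bb (k + 1) = 1 / (4 * ((k : ℝ) + 1) * (k + 2)) := by
    unfold bb
    push_cast
    field_simp
    ring
  have hbpos : 0 ≤ bb k - bb (k + 1) := by rw [hb]; positivity
  have hL := len3_pos k
  refine le_trans ?_ (mul_le_mul_of_nonneg_left h hbpos)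
  rw [hb, ← mul_assoc]
  apply mul_le_mul_of_nonneg_right _ hL.le
  rw [div_mul_eq_mul_div, one_mul, le_div_iff₀ (by positivity)]
  have hH : (0 : ℝ) ≤ HH k + 2 := by positivity
  have hk : (0 : ℝ) ≤ k := by positivity
  have : 2 * ((HH k : ℝ) + 2) * (4 * ((k : ℝ) + 1) * (k + 2)) ≤
      2 * ((HH k : ℝ) + 2) * (8 * (k + 2) ^ 2) := by
    apply mul_le_mul_of_nonneg_left _ (by positivity)
    nlinarith
  calc _ ≤ _ := this
    _ = _ := by ring

/-- `ℓ¹`-distance -/
noncomputable def l1 (a b : Ga → ℝ) : ℝ := ∑ g, |a g - b g|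

theorem l1_triangle (a b c : Ga → ℝ) : l1 a c ≤ l1 a b + l1 b c := by
  unfold l1
  rw [← Finset.sum_add_distrib]
  apply Finset.sum_le_sum
  intro g _
  exact abs_sub_le _ _ _

theorem l1_comm (a b : Ga → ℝ) : l1 a b = l1 b a := by
  unfold l1
  apply Finset.sum_congr rfl
  intro g _
  exact abs_sub_comm _ _

theorem l1_self (a : Ga → ℝ) : l1 a a = 0 := by simp [l1]

theorem th_step (k : ℕ) : l1 (th k) (th (k + 1)) ≤ bb k - bb (k + 1) := by
  have h := V_succ_rel k 3
  have hL := len3_pos (k + 1)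
  rw [ph3] at h
  have e : l1 (th k) (th (k + 1)) * len (k + 1) 3 =
      ∑ g, |(V (k + 1) 3 (g + 0) : ℝ) - len (k + 1) 3 * th k g| := by
    unfold l1
    rw [Finset.sum_mul]
    apply Finset.sum_congr rfl
    intro g _
    have e : (V (k + 1) 3 (g + 0) : ℝ) - len (k + 1) 3 * th k g =
        (th (k + 1) g - th k g) * len (k + 1) 3 := by
      have : th (k + 1) g * len (k + 1) 3 = V (k + 1) 3 g := div_mul_cancel₀ _ hL.ne'
      rw [sub_mul, this, add_zero]
      ring
    rw [e, abs_mul, abs_of_pos hL, abs_sub_comm]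
  rw [← e] at h
  exact le_of_mul_le_mul_right h hL

theorem th_dist (k : ℕ) : ∀ m ≥ k, l1 (th k) (th m) ≤ bb k - bb m := by
  intro m hm
  induction m, hm using Nat.le_induction with
  | base => rw [l1_self, sub_self]
  | succ m hm ih =>
    have := l1_triangle (th k) (th m) (th (m + 1))
    have := th_step m
    linarith

theorem bb_tendsto : Tendsto bb atTop (𝓝 0) := by
  have h := (tendsto_one_div_add_atTop_nhds_zero_nat (𝕜 := ℝ)).const_mul (1 / 4)
  rw [mul_zero] at h
  refine h.congr fun k => ?_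
  unfold bb
  rw [one_div_mul_one_div_rev]
  congr 1
  ring

theorem exists_theta : ∃ θ : Ga → ℝ, (∀ g, 0 ≤ θ g) ∧ ∑ g, θ g = 1 ∧ ∀ k, l1 (th k) θ ≤ bb k := by
  have hcau : ∀ g, CauchySeq fun k => th k g := by
    intro g
    apply cauchySeq_of_le_tendsto_0 (fun k => 2 * bb k)
    · intro n m N hn hm
      have hsing : ∀ a, N ≤ a → |th N g - th a g| ≤ bb N := by
        intro a ha
        have h1 := th_dist N a ha
        have h2 : |th N g - th a g| ≤ l1 (th N) (th a) :=
          Finset.single_le_sum (f := fun g => |th N g - th a g|) (fun _ _ => abs_nonneg _)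
            (Finset.mem_univ g)
        have := bb_pos a
        linarith
      rw [Real.dist_eq]
      have h1 := hsing n hn
      have h2 := hsing m hm
      have h3 := abs_sub_le (th n g) (th N g) (th m g)
      rw [abs_sub_comm (th n g) (th N g)] at h3
      linarith
    · simpa using bb_tendsto.const_mul 2
  choose θ hθ using fun g => cauchySeq_tendsto_of_complete (hcau g)
  refine ⟨θ, fun g => ge_of_tendsto' (hθ g) fun k => th_nonneg k g, ?_, ?_⟩
  · have h1 : Tendsto (fun k => ∑ g, th k g) atTop (𝓝 (∑ g, θ g)) :=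
      tendsto_finsetSum _ fun g _ => hθ g
    simp only [sum_th] at h1
    exact (tendsto_nhds_unique h1 tendsto_const_nhds)
  · intro k
    have h1 : Tendsto (fun m => l1 (th k) (th m)) atTop (𝓝 (l1 (th k) θ)) := by
      unfold l1
      apply tendsto_finsetSum
      intro g _
      exact (tendsto_const_nhds.sub (hθ g)).abs
    apply le_of_tendsto h1
    filter_upwards [eventually_ge_atTop k] with m hm
    have := th_dist k m hm
    have := bb_pos m
    linarith

/-- full block of a late type -/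
theorem full_dev {θ : Ga → ℝ} (hθ : ∀ k, l1 (th k) θ ≤ bb k) (k : ℕ) (t : Letter)
    (ht : t = 3 ∨ t = 4) :
    ∑ g, |(V k t g : ℝ) - len k t * θ g| ≤ 1 / ((k : ℝ) + 1) * len k t := by
  have hpt : ph t = 0 := by
    rcases ht with rfl | rfl
    · exact ph3
    · exact ph4
  have hlt : (0 : ℝ) ≤ len k t := Nat.cast_nonneg _
  cases k with
  | zero =>
    have e : ∀ g, (V 0 t g : ℝ) = th 0 g := by
      intro g
      simp [th, V, len, hpt, ph3]
    have hl : (len 0 t : ℝ) = 1 := by simp [len]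
    rw [hl]
    simp only [e, one_mul]
    have := hθ 0
    unfold l1 at this
    refine this.trans ?_
    unfold bb
    norm_num
  | succ k =>
    have h1 := V_succ_rel k t
    rw [hpt] at h1
    simp only [add_zero] at h1
    have h2 := hθ k
    have h3 : ∑ g, |(len (k + 1) t : ℝ) * th k g - len (k + 1) t * θ g| ≤ bb k * len (k + 1) t := by
      have : ∀ g, |(len (k + 1) t : ℝ) * th k g - len (k + 1) t * θ g| =
          len (k + 1) t * |th k g - θ g| := by
        intro g
        rw [← mul_sub, abs_mul, abs_of_nonneg hlt]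
      simp only [this]
      rw [← Finset.mul_sum, mul_comm]
      exact mul_le_mul_of_nonneg_right h2 hlt
    have h4 := l1_triangle (fun g => (V (k + 1) t g : ℝ)) (fun g => len (k + 1) t * th k g)
      (fun g => len (k + 1) t * θ g)
    unfold l1 at h4
    have h5 := bb_pos (k + 1)
    have h6 : 2 * bb k ≤ 1 / (((k + 1 : ℕ) : ℝ) + 1) := by
      unfold bb
      push_cast
      rw [← mul_div_assoc, mul_one, div_le_div_iff₀ (by positivity) (by positivity)]
      have : (0 : ℝ) ≤ k := by positivity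
      linarith
    have h7 : 2 * bb k * len (k + 1) t ≤ 1 / (((k + 1 : ℕ) : ℝ) + 1) * len (k + 1) t :=
      mul_le_mul_of_nonneg_right h6 hlt
    nlinarith

/-! ### windows -/

theorem dev_add (P : Par) (θ : Ga → ℝ) (x : ℝ) {p q r : ℕ} (h1 : p ≤ q) (h2 : q ≤ r) (s : Ga) :
    dev P θ x p r s ≤ dev P θ x p q s + dev P θ x q r s := by
  unfold dev
  rw [← Finset.sum_add_distrib]
  apply Finset.sum_le_sum
  intro g _
  rw [helper61.Rot.cw_add P x h1 h2]
  have e : ((cw P x p q g + cw P x q r g : ℕ) : ℝ) - ((r : ℝ) - p) * θ (g - s) =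
      ((cw P x p q g : ℝ) - ((q : ℝ) - p) * θ (g - s)) +
      ((cw P x q r g : ℝ) - ((r : ℝ) - q) * θ (g - s)) := by
    push_cast
    ring
  rw [e]
  exact abs_add_le _ _

theorem dev_le (P : Par) {θ : Ga → ℝ} (hθ0 : ∀ g, 0 ≤ θ g) (hθ1 : ∑ g, θ g = 1) (x : ℝ) {p q : ℕ}
    (h : p ≤ q) (s : Ga) : dev P θ x p q s ≤ 2 * ((q : ℝ) - p) := by
  have hpq : (p : ℝ) ≤ q := by exact_mod_cast h
  unfold dev
  apply l1_le
  · exact fun g => Nat.cast_nonneg _
  · exact fun g => mul_nonneg (by linarith) (hθ0 _)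
  · rw [← Nat.cast_sum, helper61.Rot.sum_cw P x h]
    push_cast [Nat.cast_sub h]
    ring
  · rw [← Finset.mul_sum]
    have : ∑ g, θ (g - s) = 1 := by
      rw [← hθ1]
      exact Fintype.sum_equiv (Equiv.subRight s) _ _ fun g => rfl
    rw [this, mul_one]

/-- full sub-block: deviation -/
theorem dev_sub (E : Data) {θ : Ga → ℝ} (hθ0 : ∀ g, 0 ≤ θ g) (hθ1 : ∑ g, θ g = 1)
    (hθ : ∀ k, l1 (th k) θ ≤ bb k) (k : ℕ) {y : ℝ}
    (h0 : 0 ≤ y) (h1 : y < 1) {i : ℕ} (hi : i < nt k (E.typ (k + 1) y)) :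
    dev E.par θ (E.w (k + 1) * y) (tm k (E.typ (k + 1) y) i) (tm k (E.typ (k + 1) y) (i + 1))
      (ph (E.typ (k + 1) y)) ≤
      (if i < gR k (E.typ (k + 1) y) then 2 * (len k 3 : ℝ) else 0) +
      1 / ((k : ℝ) + 1) * (len k (sub k (E.typ (k + 1) y) i)) := by
  set t := E.typ (k + 1) y with ht
  have hlen : (tm k t (i + 1) : ℝ) - tm k t i = len k (sub k t i) := by
    rw [tm_succ]
    push_cast
    ring
  have hle3 : (len k (sub k t i) : ℝ) ≤ len k 3 := by exact_mod_cast len_le3 k _
  by_cases hg : i < gR k t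
  · rw [if_pos hg]
    have h := dev_le E.par hθ0 hθ1 (E.w (k + 1) * y) (tm_mono k t (Nat.le_succ i)) (ph t)
    have e : i.succ = i + 1 := rfl
    rw [e, hlen] at h
    have : 0 ≤ 1 / ((k : ℝ) + 1) * (len k (sub k t i)) := by positivity
    linarith
  · rw [if_neg hg, zero_add]
    push Not at hg
    obtain ⟨a1, a2, a3, -, -⟩ := helper61.Rot.typ_tower E k h0 h1 hi
    rw [← ht] at a3
    have hs : sub k t i = 3 ∨ sub k t i = 4 := by
      rw [sub_late k t hg]
      split_ifs
      · exact Or.inl rfl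
      · exact Or.inr rfl
    have hl := Lb_late k t hg hi.le
    have hf := full_dev hθ k (sub k t i) hs
    refine le_trans (le_of_eq ?_) hf
    unfold dev
    rw [hlen]
    refine Fintype.sum_equiv (Equiv.subRight (ph t)) _ _ fun g => ?_
    simp only [Equiv.subRight_apply]
    have h := cw_sub E k h0 h1 hi 0 (len k (sub k t i)) g
    rw [add_zero, ← ht, ← tm_succ, hl] at h
    rw [h, ← a3, cw_full E k a1 a2, a3]

/-- full sub-blocks `i ≤ l < j` -/
theorem dev_subs (E : Data) {θ : Ga → ℝ} (hθ0 : ∀ g, 0 ≤ θ g) (hθ1 : ∑ g, θ g = 1)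
    (hθ : ∀ k, l1 (th k) θ ≤ bb k) (k : ℕ) {y : ℝ}
    (h0 : 0 ≤ y) (h1 : y < 1) {i j : ℕ} (hij : i ≤ j) (hj : j ≤ nt k (E.typ (k + 1) y)) :
    dev E.par θ (E.w (k + 1) * y) (tm k (E.typ (k + 1) y) i) (tm k (E.typ (k + 1) y) j)
      (ph (E.typ (k + 1) y)) ≤
      ((Finset.Ico i j).filter (fun l => l < gR k (E.typ (k + 1) y))).card * (2 * (len k 3 : ℝ)) +
      1 / ((k : ℝ) + 1) * ((tm k (E.typ (k + 1) y) j : ℝ) - tm k (E.typ (k + 1) y) i) := by
  induction j, hij using Nat.le_induction with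
  | base =>
    have := dev_le E.par hθ0 hθ1 (E.w (k + 1) * y) (le_refl (tm k (E.typ (k + 1) y) i))
      (ph (E.typ (k + 1) y))
    simpa using this
  | succ j hij ih =>
    have h2 := ih (by omega)
    have h3 := dev_sub E hθ0 hθ1 hθ k h0 h1 (i := j) (by omega)
    have h4 := dev_add E.par θ (E.w (k + 1) * y) (tm_mono k (E.typ (k + 1) y) hij)
      (tm_mono k (E.typ (k + 1) y) (Nat.le_succ j)) (ph (E.typ (k + 1) y))
    have hlen : (tm k (E.typ (k + 1) y) (j + 1) : ℝ) = tm k (E.typ (k + 1) y) j +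
        len k (sub k (E.typ (k + 1) y) j) := by
      rw [tm_succ]
      push_cast
      ring
    have hcard : (((Finset.Ico i (j + 1)).filter (fun l => l < gR k (E.typ (k + 1) y))).card : ℝ) *
        (2 * (len k 3 : ℝ)) =
        ((Finset.Ico i j).filter (fun l => l < gR k (E.typ (k + 1) y))).card * (2 * (len k 3 : ℝ)) +
        (if j < gR k (E.typ (k + 1) y) then 2 * (len k 3 : ℝ) else 0) := by
      rw [← Finset.insert_Ico_right_eq_Ico_add_one hij, Finset.filter_insert]
      split_ifs with hg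
      · rw [Finset.card_insert_of_notMem (by simp)]
        push_cast
        ring
      · ring
    rw [hcard, hlen]
    have e : j.succ = j + 1 := rfl
    rw [e] at h4
    nlinarith

theorem dev_block (E : Data) {θ : Ga → ℝ} (hθ0 : ∀ g, 0 ≤ θ g) (hθ1 : ∑ g, θ g = 1)
    (hθ : ∀ k, l1 (th k) θ ≤ bb k) (k : ℕ) {y : ℝ}
    (h0 : 0 ≤ y) (h1 : y < 1) {p q : ℕ} (hpq : p ≤ q) (hq : q ≤ len (k + 1) (E.typ (k + 1) y)) :
    dev E.par θ (E.w (k + 1) * y) p q (ph (E.typ (k + 1) y)) ≤
      1 / ((k : ℝ) + 1) * ((q : ℝ) - p) + 3 * EE (k + 1) := by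
  set t := E.typ (k + 1) y with ht
  have hpq' : (p : ℝ) ≤ q := by exact_mod_cast hpq
  have hk : (0 : ℝ) ≤ 1 / ((k : ℝ) + 1) := by positivity
  have hEE : (EE (k + 1) : ℝ) = HH k * len k 3 := by simp [EE]
  have hH : (12 : ℝ) ≤ HH k := by exact_mod_cast HH_ge k
  have hL := len3_pos k
  have hEE12 : 12 * (len k 3 : ℝ) ≤ EE (k + 1) := by rw [hEE]; nlinarith
  have hmono := tm_mono k t
  -- index of the sub-block containing a point
  have hidx : ∀ a < len (k + 1) t, ∃ i < nt k t, tm k t i ≤ a ∧ a < tm k t (i + 1) := by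
    intro a ha
    rw [← tm_nt] at ha
    have hex : ∃ n, a < tm k t n := ⟨_, ha⟩
    classical
    have h1 := Nat.find_spec hex
    have h2 : Nat.find hex ≠ 0 := by
      intro h
      rw [h, tm_zero] at h1
      omega
    obtain ⟨i, hi⟩ := Nat.exists_eq_succ_of_ne_zero h2
    have h3 : Nat.find hex ≤ nt k t := Nat.find_min' hex ha
    have h4 := Nat.find_min hex (m := i) (by omega)
    rw [hi] at h1
    exact ⟨i, by omega, by omega, h1⟩
  have hlen3 : ∀ i, (tm k t (i + 1) : ℝ) - tm k t i ≤ len k 3 := by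
    intro i
    rw [tm_succ]
    have : (len k (sub k t i) : ℝ) ≤ len k 3 := by exact_mod_cast len_le3 k _
    push_cast
    linarith
  -- short windows
  have hshort : (q : ℝ) - p ≤ 2 * len k 3 → dev E.par θ (E.w (k + 1) * y) p q (ph t) ≤
      1 / ((k : ℝ) + 1) * ((q : ℝ) - p) + 3 * EE (k + 1) := by
    intro h
    have h2 := dev_le E.par hθ0 hθ1 (E.w (k + 1) * y) hpq (ph t)
    have : 0 ≤ 1 / ((k : ℝ) + 1) * ((q : ℝ) - p) := mul_nonneg hk (by linarith)
    linarith
  rcases Nat.eq_or_lt_of_le hpq with hpq0 | hlt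
  · apply hshort
    rw [hpq0]
    linarith
  obtain ⟨i, hi, hi1, hi2⟩ := hidx p (by omega)
  obtain ⟨j, hj, hj1, hj2⟩ := hidx (q - 1) (by omega)
  have hj3 : q ≤ tm k t (j + 1) := by omega
  by_cases hij : i + 1 ≤ j
  · have h1' : tm k t (i + 1) ≤ tm k t j := hmono hij
    have hjq : tm k t j ≤ q := by omega
    have a1 := dev_add E.par θ (E.w (k + 1) * y) (le_of_lt hi2) (h1'.trans hjq) (ph t)
    have a2 := dev_add E.par θ (E.w (k + 1) * y) h1' hjq (ph t)
    have b1 := dev_le E.par hθ0 hθ1 (E.w (k + 1) * y) (le_of_lt hi2) (ph t)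
    have b2 := dev_le E.par hθ0 hθ1 (E.w (k + 1) * y) hjq (ph t)
    have b3 := dev_subs E hθ0 hθ1 hθ k h0 h1 hij hj.le
    rw [← ht] at b3
    have c1 : (tm k t (i + 1) : ℝ) - p ≤ len k 3 := by
      have := hlen3 i
      have : (tm k t i : ℝ) ≤ p := by exact_mod_cast hi1
      linarith
    have c2 : (q : ℝ) - tm k t j ≤ len k 3 := by
      have := hlen3 j
      have : (q : ℝ) ≤ tm k t (j + 1) := by exact_mod_cast hj3
      linarith
    have c3 : (tm k t j : ℝ) - tm k t (i + 1) ≤ q - p := by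
      have e1 : (tm k t j : ℝ) ≤ q := by exact_mod_cast hjq
      have e2 : (p : ℝ) ≤ tm k t (i + 1) := by exact_mod_cast hi2.le
      linarith
    have c4 : 1 / ((k : ℝ) + 1) * ((tm k t j : ℝ) - tm k t (i + 1)) ≤
        1 / ((k : ℝ) + 1) * ((q : ℝ) - p) := mul_le_mul_of_nonneg_left c3 hk
    have c5 : (((Finset.Ico (i + 1) j).filter (fun l => l < gR k t)).card : ℝ) ≤ HH k + 1 := by
      have hsub : (Finset.Ico (i + 1) j).filter (fun l => l < gR k t) ⊆ Finset.range (gR k t) := by
        intro l hl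
        rw [Finset.mem_filter] at hl
        rw [Finset.mem_range]
        exact hl.2
      have h1 := Finset.card_le_card hsub
      rw [Finset.card_range] at h1
      have h3 := gR_le k t
      exact_mod_cast h1.trans h3
    have c6 : (((Finset.Ico (i + 1) j).filter (fun l => l < gR k t)).card : ℝ) * (2 * (len k 3 : ℝ)) ≤
        (HH k + 1) * (2 * (len k 3 : ℝ)) := mul_le_mul_of_nonneg_right c5 (by positivity)
    have c7 : ((HH k : ℝ) + 1) * (2 * (len k 3 : ℝ)) = 2 * EE (k + 1) + 2 * len k 3 := by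
      rw [hEE]
      ring
    linarith
  · apply hshort
    have : tm k t (j + 1) ≤ tm k t (i + 1) := hmono (by omega)
    have e1 : (q : ℝ) ≤ tm k t (i + 1) := by exact_mod_cast hj3.trans this
    have e2 : (tm k t i : ℝ) ≤ p := by exact_mod_cast hi1
    have := hlen3 i
    linarith

theorem eq_main (E : Data) : ∃ θ : Ga → ℝ, (∀ g, 0 ≤ θ g) ∧ ∑ g, θ g = 1 ∧
    ∑ g, |θ g - if g = 0 then 1 else 0| ≤ 1 / 2 ∧
    ∃ (C : ℝ) (ε : ℕ → ℝ), 0 ≤ C ∧ (∀ k, 0 ≤ ε k) ∧ Tendsto ε atTop (𝓝 0) ∧
      ∀ (k : ℕ) (y : ℝ), 0 ≤ y → y < 1 → ∀ p q : ℕ, p ≤ q → q ≤ len k (E.typ k y) →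
        dev E.par θ (E.w k * y) p q (ph (E.typ k y)) ≤ ε k * ((q : ℝ) - p) + C * EE k := by
  obtain ⟨θ, hθ0, hθ1, hθ⟩ := exists_theta
  refine ⟨θ, hθ0, hθ1, ?_, 3, fun k => 1 / (k : ℝ), by norm_num, fun k => by positivity,
    tendsto_one_div_atTop_nhds_zero_nat, ?_⟩
  · have h := hθ 0
    unfold l1 at h
    have e : ∀ g, |θ g - if g = 0 then 1 else 0| = |th 0 g - θ g| := by
      intro g
      rw [abs_sub_comm]
      congr 2
      simp [th, V, len, ph3]
    simp only [e]
    refine h.trans ?_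
    unfold bb
    norm_num
  · intro k y h0 h1 p q hpq hq
    cases k with
    | zero =>
      have h := dev_le E.par hθ0 hθ1 (E.w 0 * y) hpq (ph (E.typ 0 y))
      have hq1 : (q : ℝ) ≤ 1 := by exact_mod_cast hq
      have hp0 : (0 : ℝ) ≤ p := Nat.cast_nonneg _
      have hpq' : (p : ℝ) ≤ q := by exact_mod_cast hpq
      simp only [EE]
      push_cast
      have : (1 : ℝ) / 0 * ((q : ℝ) - p) = 0 := by simp
      rw [this]
      linarith
    | succ k =>
      have h := dev_block E hθ0 hθ1 hθ k h0 h1 hpq hq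
      push_cast
      exact h

end Pool.Agent.helper30.Rot
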