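import Mathlib
import Pool.Agent.helper18.Rot.SymDefs
import Pool.Agent.helper54.Rot.Comb

/-!
# mod:sepcost — separation of the orbit and the cost
-/

open Topology Filter Set

namespace Pool.Agent.helper30.Rot

open Pool.Agent.helper18.Rot Pool.Agent.helper18.Rot.Sym

/-! ### distance to the nearest integer -/

noncomputable def nn (x : ℝ) : ℝ := |x - round x|

theorem norm_eq_nn (x : ℝ) : ‖(x : UnitAddCircle)‖ = nn x := UnitAddCircle.norm_eq

theorem nn_nonneg (x : ℝ) : 0 ≤ nn x := abs_nonneg _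

theorem nn_le (x : ℝ) (n : ℤ) : nn x ≤ |x - n| := round_le x n

theorem nn_le_half (x : ℝ) : nn x ≤ 1 / 2 := abs_sub_round x

theorem nn_congr {x y : ℝ} {n : ℤ} (h : x - y = n) : nn x = nn y := by
  have : x = y + n := by linarith
  subst this
  simp [nn, round_add_intCast]

theorem nn_neg (x : ℝ) : nn (-x) = nn x := by
  have h1 : ∀ x, nn (-x) ≤ nn x := by
    intro x
    have := nn_le (-x) (-round x)
    have h2 : |(-x) - ((-round x : ℤ) : ℝ)| = nn x := by
      unfold nn
      rw [← abs_neg]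
      congr 1
      push_cast
      ring
    linarith
  apply le_antisymm (h1 x)
  have := h1 (-x)
  rwa [neg_neg] at this

theorem nn_eq_abs {x : ℝ} (h : |x| ≤ 1 / 2) : nn x = |x| := by
  rw [← norm_eq_nn]
  have := (AddCircle.norm_coe_eq_abs_iff (1 : ℝ) (x := x) one_ne_zero).2 (by simpa using h)
  exact this

theorem nn_add_ge (x y : ℝ) : nn x - |y| ≤ nn (x + y) := by
  have h := nn_le x (round (x + y))
  have h2 : x - (round (x + y) : ℝ) = (x + y - round (x + y)) + (-y) := by ring
  rw [h2] at h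
  have h3 := abs_add_le (x + y - round (x + y)) (-y)
  rw [abs_neg] at h3
  unfold nn at *
  linarith

/-! ### the numbers `w k` and the return times -/

theorem NN_ge (k : ℕ) : 1000 ≤ NN k := by
  unfold NN
  have : 1 ≤ (k + 2) ^ 8 := Nat.one_le_pow _ _ (by omega)
  omega

attribute [local irreducible] NN

theorem w_zero (E : Data) : E.w 0 = 1 := by simp [Data.w]

theorem w_succ (E : Data) (k : ℕ) : E.w (k + 1) = E.w k * E.al k := by
  simp [Data.w, Finset.prod_range_succ]

theorem w_pos (E : Data) (k : ℕ) : 0 < E.w k := Finset.prod_pos fun j _ => E.al_pos j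

theorem w_eq (E : Data) (k : ℕ) : E.w k = NN k * E.w (k + 1) - E.w (k + 2) := by
  rw [w_succ E (k + 1), w_succ E k]
  have := E.al_rec k
  linear_combination (-E.w k) * this

theorem w_succ_le (E : Data) (k : ℕ) : 1000 * E.w (k + 1) ≤ E.w k := by
  rw [w_succ]
  have h1 := E.al_lt k
  have h2 := w_pos E k
  nlinarith

theorem w_le_one (E : Data) (k : ℕ) : E.w k ≤ 1 := by
  induction k with
  | zero => rw [w_zero]
  | succ k ih => linarith [w_succ_le E k, w_pos E (k + 1)]

theorem coe_len (E : Data) (k : ℕ) :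
    (∃ n : ℤ, (len k 3 : ℝ) * E.al 0 - E.w (k + 1) = n) ∧
    (∃ n : ℤ, (len k 4 : ℝ) * E.al 0 - (E.w (k + 1) - E.w k) = n) := by
  induction k with
  | zero =>
    constructor
    · exact ⟨0, by simp [len, Data.w]⟩
    · exact ⟨1, by simp [len, Data.w]⟩
  | succ k ih =>
    obtain ⟨⟨n, hn⟩, ⟨m, hm⟩⟩ := ih
    have hN := NN_ge k
    have h3 : (len (k + 1) 3 : ℝ) = (NN k - 1) * len k 3 + len k 4 := by
      rw [helper54.Rot.len_succ_three k]
      push_cast [Nat.cast_sub (show 1 ≤ NN k by omega)]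
      ring
    have h4 : (len (k + 1) 4 : ℝ) = len (k + 1) 3 - len k 3 := by
      have := helper54.Rot.len_succ_four k
      rw [← this]
      push_cast
      ring
    have hw := w_eq E k
    have key : (len (k + 1) 3 : ℝ) * E.al 0 - E.w (k + 1 + 1) = ((NN k - 1) * n + m : ℤ) := by
      rw [h3]
      push_cast
      rw [← hn, ← hm]
      linear_combination (-1 : ℝ) * hw
    refine ⟨⟨_, key⟩, ⟨(NN k - 1) * n + m - n, ?_⟩⟩
    rw [h4, Int.cast_sub, ← key, ← hn]
    ring

theorem len_le (k : ℕ) : len k 4 ≤ len k 3 := helper54.Rot.len_four_le k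

theorem sep_aux (E : Data) (k : ℕ) :
    (∀ m : ℕ, 0 < m → m < len k 4 → E.w k ≤ nn (m * E.al 0)) ∧
    (∀ m : ℕ, 0 < m → m < len k 3 → E.w k - E.w (k + 1) ≤ nn (m * E.al 0)) := by
  induction k with
  | zero =>
    constructor
    · intro m h0 h1
      simp [len] at h1
      omega
    · intro m h0 h1
      simp [len] at h1
      omega
  | succ k ih =>
    obtain ⟨ih1, ih2⟩ := ih
    obtain ⟨⟨n, hn⟩, -⟩ := coe_len E k
    obtain ⟨-, ⟨n', hn'⟩⟩ := coe_len E (k + 1)
    have hN := NN_ge k
    have hw := w_eq E k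
    have hw1 := w_succ_le E k
    have hw2 := w_succ_le E (k + 1)
    have hp1 := w_pos E (k + 1)
    have hp2 := w_pos E (k + 2)
    have hk1 := w_le_one E k
    have h3 := helper54.Rot.len_succ_three k
    have h4 := helper54.Rot.len_succ_four k
    have hL : 0 < len k 3 := helper54.Rot.len_pos k 3
    have hLM := len_le k
    have part1 : ∀ m : ℕ, 0 < m → m < len (k + 1) 4 → E.w (k + 1) ≤ nn (m * E.al 0) := by
      intro m h0 h1
      obtain ⟨a, b, hb, rfl⟩ : ∃ a b, b < len k 3 ∧ m = a * len k 3 + b :=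
        ⟨m / len k 3, m % len k 3, Nat.mod_lt _ hL, by
          rw [mul_comm]; exact (Nat.div_add_mod m (len k 3)).symm⟩
      have hlen4 : len (k + 1) 4 = (NN k - 2) * len k 3 + len k 4 := by
        have : NN k - 1 = (NN k - 2) + 1 := by omega
        rw [this] at h3
        rw [add_mul] at h3
        omega
      rw [hlen4] at h1
      have ha : a ≤ NN k - 2 := by
        by_contra hcon
        have : (NN k - 2 + 1) * len k 3 ≤ a * len k 3 := Nat.mul_le_mul_right _ (by omega)
        rw [add_mul] at this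
        omega
      have haR : (a : ℝ) ≤ NN k - 2 := by
        have : (a : ℝ) ≤ ((NN k - 2 : ℕ) : ℝ) := by exact_mod_cast ha
        rw [Nat.cast_sub (by omega)] at this
        exact_mod_cast this
      have hcong : nn (((a * len k 3 + b : ℕ) : ℝ) * E.al 0) = nn (b * E.al 0 + a * E.w (k + 1)) := by
        apply nn_congr (n := a * n)
        push_cast
        rw [← hn]
        ring
      have ha0 : (0 : ℝ) ≤ a := by positivity
      have haw : (a : ℝ) * E.w (k + 1) ≤ E.w k - 2 * E.w (k + 1) + E.w (k + 2) := by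
        nlinarith
      have haw0 : 0 ≤ (a : ℝ) * E.w (k + 1) := by positivity
      rw [hcong]
      rcases Nat.eq_zero_or_pos b with hb0 | hb0
      · subst hb0
        have ha1 : 1 ≤ a := by
          by_contra hcon
          have : a = 0 := by omega
          subst this
          simp at h0
        have ha1R : (1 : ℝ) ≤ a := by exact_mod_cast ha1
        have haw1 : E.w (k + 1) ≤ (a : ℝ) * E.w (k + 1) := by nlinarith
        simp only [Nat.cast_zero, zero_mul, zero_add]
        -- nn of a number between w and 1 - w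
        by_cases hhalf : (a : ℝ) * E.w (k + 1) ≤ 1 / 2
        · rw [nn_eq_abs (by rw [abs_of_nonneg haw0]; exact hhalf), abs_of_nonneg haw0]
          exact haw1
        · push Not at hhalf
          have e1 : nn ((a : ℝ) * E.w (k + 1)) = nn ((a : ℝ) * E.w (k + 1) - 1) :=
            nn_congr (n := 1) (by push_cast; ring)
          rw [e1, nn_eq_abs, abs_of_nonpos]
          · linarith
          · linarith
          · rw [abs_le]
            constructor <;> linarith
      · by_cases hbM : b < len k 4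
        · have h := ih1 b hb0 hbM
          have h' := nn_add_ge (b * E.al 0) (a * E.w (k + 1))
          rw [abs_of_nonneg haw0] at h'
          linarith
        · push Not at hbM
          have ha' : a + 1 ≤ NN k - 2 := by
            by_contra hcon
            have : a = NN k - 2 := by omega
            subst this
            omega
          have haR' : (a : ℝ) + 1 ≤ NN k - 2 := by
            have : ((a + 1 : ℕ) : ℝ) ≤ ((NN k - 2 : ℕ) : ℝ) := by exact_mod_cast ha'
            rw [Nat.cast_sub (by omega)] at this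
            push_cast at this
            exact this
          have haw' : (a : ℝ) * E.w (k + 1) ≤ E.w k - 3 * E.w (k + 1) + E.w (k + 2) := by
            nlinarith
          have h := ih2 b hb0 hb
          have h' := nn_add_ge (b * E.al 0) (a * E.w (k + 1))
          rw [abs_of_nonneg haw0] at h'
          linarith
    refine ⟨part1, ?_⟩
    intro m h0 h1
    by_cases hm : m < len (k + 1) 4
    · have := part1 m h0 hm
      linarith
    · push Not at hm
      obtain ⟨m', rfl⟩ := Nat.exists_eq_add_of_le hm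
      have hm' : m' < len k 3 := by omega
      have hcong : nn (((len (k + 1) 4 + m' : ℕ) : ℝ) * E.al 0) =
          nn (m' * E.al 0 + (E.w (k + 2) - E.w (k + 1))) := by
        apply nn_congr (n := n')
        push_cast
        rw [← hn']
        ring
      rw [hcong]
      rcases Nat.eq_zero_or_pos m' with hb0 | hb0
      · subst hb0
        simp only [Nat.cast_zero, zero_mul, zero_add]
        rw [nn_eq_abs, abs_of_nonpos]
        · linarith
        · linarith
        · rw [abs_le]
          constructor <;> linarith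
      · have h := ih2 m' hb0 hm'
        have h' := nn_add_ge (m' * E.al 0) (E.w (k + 2) - E.w (k + 1))
        rw [abs_of_nonpos (by linarith)] at h'
        linarith

theorem sep (E : Data) (k : ℕ) {m : ℕ} (h0 : 0 < m) (h1 : m < len k 4) :
    E.w k ≤ ‖((m * E.al 0 : ℝ) : UnitAddCircle)‖ := by
  rw [norm_eq_nn]
  exact (sep_aux E k).1 m h0 h1

/-! ### one-sided sums of logarithms over separated points -/

theorem sum_inv_sqrt (K : ℕ) : ∑ m ∈ Finset.range K, 1 / √((m : ℝ) + 1) ≤ 2 * √K := by
  induction K with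
  | zero => simp
  | succ K ih =>
    rw [Finset.sum_range_succ]
    have h1 : 1 / √((K : ℝ) + 1) ≤ 2 * √((K : ℝ) + 1) - 2 * √K := by
      have hp : 0 < √((K : ℝ) + 1) := Real.sqrt_pos.2 (by positivity)
      rw [div_le_iff₀ hp]
      have e1 : √((K : ℝ) + 1) * √((K : ℝ) + 1) = K + 1 := Real.mul_self_sqrt (by positivity)
      have e2 : √(K : ℝ) * √(K : ℝ) = K := Real.mul_self_sqrt (by positivity)
      nlinarith [sq_nonneg (√((K : ℝ) + 1) - √(K : ℝ))]
    push_cast
    linarith

theorem neg_log_le {t : ℝ} (ht : 0 < t) : -Real.log t ≤ 2 * (1 / √t) := by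
  have h1 : 0 < √t := Real.sqrt_pos.2 ht
  have h2 : Real.log (1 / √t) ≤ 1 / √t - 1 := Real.log_le_sub_one_of_pos (by positivity)
  rw [one_div, Real.log_inv, Real.log_sqrt ht.le] at h2
  rw [one_div]
  linarith

theorem one_sided {ι : Type*} [DecidableEq ι] (B : Finset ι) (v : ι → ℝ) {s d : ℝ} (hs : 0 < s)
    (hs2 : s ≤ 1 / 2) (hd : 0 < d) (hd1 : d ≤ 1) (hv : ∀ b ∈ B, d ≤ v b) (hv2 : ∀ b ∈ B, v b ≤ 1 / 2)
    (hsep : ∀ b ∈ B, ∀ b' ∈ B, b ≠ b' → s ≤ |v b - v b'|) :
    ∑ b ∈ B, -Real.log (v b) ≤ -Real.log d + 4 / s := by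
  set K : ℕ := ⌈1 / (2 * s)⌉₊ with hK
  set G : ℕ → ℝ := fun m => if m = 0 then -Real.log d else 2 * (1 / √((m : ℝ) * s)) with hG
  have hGnn : ∀ m, 0 ≤ G m := by
    intro m
    simp only [hG]
    split_ifs
    · have := Real.log_nonpos hd.le hd1
      linarith
    · positivity
  have h1 : ∀ b ∈ B, -Real.log (v b) ≤ G ⌊v b / s⌋₊ := by
    intro b hb
    have hvb := hv b hb
    simp only [hG]
    split_ifs with h0
    · have := Real.log_le_log hd hvb
      linarith
    · have hpos : 0 < v b := by linarith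
      have hfl : ((⌊v b / s⌋₊ : ℕ) : ℝ) ≤ v b / s := Nat.floor_le (by positivity)
      have hfl' : ((⌊v b / s⌋₊ : ℕ) : ℝ) * s ≤ v b := by
        rwa [le_div_iff₀ hs] at hfl
      have hpos2 : 0 < ((⌊v b / s⌋₊ : ℕ) : ℝ) * s := by
        have : (0 : ℝ) < ((⌊v b / s⌋₊ : ℕ) : ℝ) := by exact_mod_cast Nat.pos_of_ne_zero h0
        positivity
      have := Real.log_le_log hpos2 hfl'
      have h3 := neg_log_le hpos2
      linarith
  have hinj : Set.InjOn (fun b => ⌊v b / s⌋₊) (B : Set ι) := by
    intro b hb b' hb' he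
    by_contra hne
    have hb1 : b ∈ B := hb
    have hb2 : b' ∈ B := hb'
    have h := hsep b hb1 b' hb2 hne
    simp only at he
    have p1 : 0 ≤ v b / s := div_nonneg (by linarith [hv b hb1]) hs.le
    have p2 : 0 ≤ v b' / s := div_nonneg (by linarith [hv b' hb2]) hs.le
    have f1 := Nat.floor_le p1
    have f2 := Nat.lt_floor_add_one (v b / s)
    have f3 := Nat.floor_le p2
    have f4 := Nat.lt_floor_add_one (v b' / s)
    rw [he] at f1 f2
    have g1 : v b / s - v b' / s < 1 := by linarith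
    have g2 : v b' / s - v b / s < 1 := by linarith
    rw [← sub_div, div_lt_one hs] at g1 g2
    have : |v b - v b'| < s := by
      rw [abs_lt]
      constructor <;> linarith
    linarith
  have hsub : B.image (fun b => ⌊v b / s⌋₊) ⊆ Finset.range (K + 1) := by
    intro m hm
    rw [Finset.mem_image] at hm
    obtain ⟨b, hb, rfl⟩ := hm
    rw [Finset.mem_range, Nat.lt_succ_iff]
    apply Nat.floor_le_of_le
    have h2 := hv2 b hb
    have : v b / s ≤ 1 / (2 * s) := by
      rw [div_le_div_iff₀ hs (by positivity)]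
      nlinarith
    exact this.trans (Nat.le_ceil _)
  calc ∑ b ∈ B, -Real.log (v b) ≤ ∑ b ∈ B, G ⌊v b / s⌋₊ := Finset.sum_le_sum h1
    _ = ∑ m ∈ B.image (fun b => ⌊v b / s⌋₊), G m := (Finset.sum_image hinj).symm
    _ ≤ ∑ m ∈ Finset.range (K + 1), G m :=
        Finset.sum_le_sum_of_subset_of_nonneg hsub fun m _ _ => hGnn m
    _ = -Real.log d + ∑ m ∈ Finset.range K, 2 * (1 / √(((m : ℝ) + 1) * s)) := by
        rw [Finset.sum_range_succ']
        simp only [hG]
        simp [add_comm]
    _ ≤ -Real.log d + 4 / s := by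
        have e : ∀ m ∈ Finset.range K, 2 * (1 / √(((m : ℝ) + 1) * s)) =
            (2 / √s) * (1 / √((m : ℝ) + 1)) := by
          intro m _
          rw [Real.sqrt_mul (by positivity)]
          field_simp
        rw [Finset.sum_congr rfl e, ← Finset.mul_sum]
        have hS := sum_inv_sqrt K
        have hKle : (K : ℝ) ≤ 1 / s := by
          have h1 : (K : ℝ) < 1 / (2 * s) + 1 := Nat.ceil_lt_add_one (by positivity)
          have h2 : (1 : ℝ) ≤ 1 / (2 * s) := by
            rw [le_div_iff₀ (by positivity)]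
            linarith
          have h3 : 1 / (2 * s) + 1 / (2 * s) = 1 / s := by field_simp; norm_num
          linarith
        have hsq : √(K : ℝ) ≤ 1 / √s := by
          calc √(K : ℝ) ≤ √(1 / s) := Real.sqrt_le_sqrt hKle
            _ = 1 / √s := by rw [Real.sqrt_div zero_le_one, Real.sqrt_one]
        have hs' : 0 < √s := Real.sqrt_pos.2 hs
        have : (2 / √s) * ∑ m ∈ Finset.range K, 1 / √((m : ℝ) + 1) ≤ (2 / √s) * (2 * (1 / √s)) := by
          apply mul_le_mul_of_nonneg_left _ (by positivity)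
          linarith
        have h5 : (2 / √s) * (2 * (1 / √s)) = 4 / s := by
          have := Real.mul_self_sqrt hs.le
          field_simp
          nlinarith
        linarith

theorem two_sided (L : ℕ) (u : ℕ → ℝ) {s d : ℝ} (hs : 0 < s)
    (hs2 : s ≤ 1 / 2) (hd : 0 < d) (hd1 : d ≤ 1) (hv : ∀ b < L, d ≤ nn (u b))
    (hsep : ∀ b < L, ∀ b' < L, b ≠ b' → s ≤ nn (u b - u b')) :
    ∑ b ∈ Finset.range L, -Real.log (nn (u b)) ≤ 2 * (-Real.log d) + 8 / s := by
  set v : ℕ → ℝ := fun b => u b - round (u b) with hvdef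
  have hnv : ∀ b, nn (u b) = |v b| := fun b => rfl
  have hsep' : ∀ b < L, ∀ b' < L, b ≠ b' → s ≤ |v b - v b'| := by
    intro b hb b' hb' hne
    have h := hsep b hb b' hb' hne
    have h2 := nn_le (u b - u b') (round (u b) - round (u b'))
    have h3 : u b - u b' - ((round (u b) - round (u b') : ℤ) : ℝ) = v b - v b' := by
      simp only [hvdef]
      push_cast
      ring
    rw [h3] at h2
    linarith
  rw [← Finset.sum_filter_add_sum_filter_not (Finset.range L) (fun b => 0 ≤ v b)]
  have p1 : ∑ b ∈ (Finset.range L).filter (fun b => 0 ≤ v b), -Real.log (nn (u b)) ≤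
      -Real.log d + 4 / s := by
    have e : ∀ b ∈ (Finset.range L).filter (fun b => 0 ≤ v b), -Real.log (nn (u b)) =
        -Real.log (v b) := by
      intro b hb
      rw [Finset.mem_filter] at hb
      rw [hnv, abs_of_nonneg hb.2]
    rw [Finset.sum_congr rfl e]
    apply one_sided _ _ hs hs2 hd hd1
    · intro b hb
      rw [Finset.mem_filter, Finset.mem_range] at hb
      have := hv b hb.1
      rwa [hnv, abs_of_nonneg hb.2] at this
    · intro b hb
      rw [Finset.mem_filter, Finset.mem_range] at hb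
      have := nn_le_half (u b)
      rwa [hnv, abs_of_nonneg hb.2] at this
    · intro b hb b' hb' hne
      rw [Finset.mem_filter, Finset.mem_range] at hb hb'
      exact hsep' b hb.1 b' hb'.1 hne
  have p2 : ∑ b ∈ (Finset.range L).filter (fun b => ¬ 0 ≤ v b), -Real.log (nn (u b)) ≤
      -Real.log d + 4 / s := by
    have e : ∀ b ∈ (Finset.range L).filter (fun b => ¬ 0 ≤ v b), -Real.log (nn (u b)) =
        -Real.log (-v b) := by
      intro b hb
      rw [Finset.mem_filter] at hb
      rw [hnv, abs_of_neg (not_le.1 hb.2)]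
    rw [Finset.sum_congr rfl e]
    apply one_sided _ _ hs hs2 hd hd1
    · intro b hb
      rw [Finset.mem_filter, Finset.mem_range] at hb
      have := hv b hb.1
      rwa [hnv, abs_of_neg (not_le.1 hb.2)] at this
    · intro b hb
      rw [Finset.mem_filter, Finset.mem_range] at hb
      have := nn_le_half (u b)
      rwa [hnv, abs_of_neg (not_le.1 hb.2)] at this
    · intro b hb b' hb' hne
      rw [Finset.mem_filter, Finset.mem_range] at hb hb'
      have := hsep' b' hb'.1 b hb.1 hne.symm
      have e2 : -v b - -v b' = v b' - v b := by ring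
      rwa [e2]
  have : 8 / s = 4 / s + 4 / s := by ring
  linarith

/-! ### the end points of the slits in terms of the orbit -/

theorem HH_le (k : ℕ) : HH k ≤ 12 * (k + 1) ^ 2 := by
  rw [helper54.Rot.HH_eq]
  have := helper54.Rot.jj_le k
  nlinarith

theorem HH_le_NN (k : ℕ) : HH k + 3 ≤ NN k := by
  have h := HH_le k
  have h2 : 12 * (k + 1) ^ 2 + 3 ≤ NN k := by
    have e : NN k = 1000 * (k + 2) ^ 8 := by unfold NN; rfl
    rw [e]
    have h3 : (k + 1) ^ 2 ≤ (k + 2) ^ 8 := by
      calc (k + 1) ^ 2 ≤ (k + 2) ^ 2 := Nat.pow_le_pow_left (by omega) 2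
        _ ≤ (k + 2) ^ 8 := Nat.pow_le_pow_right (by omega) (by omega)
    have h4 : 1 ≤ (k + 2) ^ 8 := Nat.one_le_pow _ _ (by omega)
    omega
  omega

theorem HH_len_le (k : ℕ) : (HH k + 1) * len k 3 ≤ len (k + 1) 3 := by
  rw [helper54.Rot.len_succ_three]
  have := HH_le_NN k
  have : (HH k + 1) * len k 3 ≤ (NN k - 1) * len k 3 := Nat.mul_le_mul_right _ (by omega)
  omega

theorem HH_len_lt (k : ℕ) : (HH k + 1) * len k 3 < len (k + 1) 4 := by
  have h3 := helper54.Rot.len_succ_three k
  have h4 := helper54.Rot.len_succ_four k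
  have h5 := HH_le_NN k
  have hL : 0 < len k 3 := helper54.Rot.len_pos k 3
  have hM : 0 < len k 4 := helper54.Rot.len_pos k 4
  have e : NN k - 1 = (NN k - 2) + 1 := by omega
  rw [e, add_mul] at h3
  have : (HH k + 1) * len k 3 ≤ (NN k - 2) * len k 3 := Nat.mul_le_mul_right _ (by omega)
  omega

theorem rep (E : Data) (c : ℕ → ℕ) (ρ : ℕ → ℝ) (hc : ∀ k, c k ≤ HH k)
    (hρ : ∀ k, ρ k = (c k + ρ (k + 1)) * E.al k) (k : ℕ) :
    ∃ T : ℕ, T ≤ (HH k + 1) * len k 3 ∧ ∃ n : ℤ, ρ 0 = T * E.al 0 + ρ (k + 1) * E.w (k + 1) + n := by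
  induction k with
  | zero =>
    refine ⟨c 0, ?_, 0, ?_⟩
    · have := hc 0
      simp [len]
      omega
    · rw [hρ 0, w_succ, w_zero]
      push_cast
      ring
  | succ k ih =>
    obtain ⟨T, hT, n, hn⟩ := ih
    obtain ⟨⟨m, hm⟩, -⟩ := coe_len E (k + 1)
    refine ⟨T + c (k + 1) * len (k + 1) 3, ?_, n - c (k + 1) * m, ?_⟩
    · have h1 := HH_len_le k
      have h2 : c (k + 1) * len (k + 1) 3 ≤ HH (k + 1) * len (k + 1) 3 :=
        Nat.mul_le_mul_right _ (hc (k + 1))
      rw [add_mul, one_mul]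
      omega
    · rw [hn, hρ (k + 1)]
      push_cast
      rw [← hm, w_succ E (k + 1)]
      ring

theorem dist_ge (E : Data) (k : ℕ) {T : ℕ} (hT : T ≤ (HH k + 1) * len k 3) {r e : ℝ} (hr : 0 ≤ r)
    (hr2 : r ≤ 1 / 4) {n : ℤ} (he : e = T * E.al 0 + r * E.w (k + 1) + n) {i : ℕ}
    (hi : i < HH k * len k 3) :
    E.w (k + 1) / 4 ≤ nn (E.w (k + 1) * (1 / 2) + i * E.al 0 - e) := by
  have hw := w_pos E (k + 1)
  have hw1 := w_le_one E (k + 1)
  have hlt := HH_len_lt k
  have hi' : i < (HH k + 1) * len k 3 := by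
    rw [add_mul]
    omega
  have hcong : nn (E.w (k + 1) * (1 / 2) + i * E.al 0 - e) =
      nn (((i : ℝ) - T) * E.al 0 + E.w (k + 1) * (1 / 2 - r)) := by
    apply nn_congr (n := -n)
    rw [he]
    push_cast
    ring
  have hpos : 0 ≤ E.w (k + 1) * (1 / 2 - r) := mul_nonneg hw.le (by linarith)
  have hle : E.w (k + 1) * (1 / 2 - r) ≤ E.w (k + 1) / 2 := by nlinarith
  have hge : E.w (k + 1) / 4 ≤ E.w (k + 1) * (1 / 2 - r) := by nlinarith
  rw [hcong]
  rcases lt_trichotomy i T with h | h | h
  · have hs := (sep_aux E (k + 1)).1 (T - i) (by omega) (by omega)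
    have e1 : ((T - i : ℕ) : ℝ) * E.al 0 = -(((i : ℝ) - T) * E.al 0) := by
      rw [Nat.cast_sub h.le]
      ring
    rw [e1, nn_neg] at hs
    have h' := nn_add_ge (((i : ℝ) - T) * E.al 0) (E.w (k + 1) * (1 / 2 - r))
    rw [abs_of_nonneg hpos] at h'
    linarith
  · subst h
    rw [sub_self, zero_mul, zero_add, nn_eq_abs, abs_of_nonneg hpos]
    · exact hge
    · rw [abs_of_nonneg hpos]
      linarith
  · have hs := (sep_aux E (k + 1)).1 (i - T) (by omega) (by omega)
    have e1 : ((i - T : ℕ) : ℝ) * E.al 0 = ((i : ℝ) - T) * E.al 0 := by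
      rw [Nat.cast_sub h.le]
    rw [e1] at hs
    have h' := nn_add_ge (((i : ℝ) - T) * E.al 0) (E.w (k + 1) * (1 / 2 - r))
    rw [abs_of_nonneg hpos] at h'
    linarith

/-! ### lengths and widths -/

theorem area (E : Data) (k : ℕ) :
    (len k 3 : ℝ) * (E.w k - E.w (k + 1)) + len k 4 * E.w (k + 1) = 1 := by
  induction k with
  | zero => simp [len, w_zero]
  | succ k ih =>
    have hN := NN_ge k
    have h3 : (len (k + 1) 3 : ℝ) = (NN k - 1) * len k 3 + len k 4 := by
      rw [helper54.Rot.len_succ_three k]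
      push_cast [Nat.cast_sub (show 1 ≤ NN k by omega)]
      ring
    have h4 : (len (k + 1) 4 : ℝ) = len (k + 1) 3 - len k 3 := by
      have := helper54.Rot.len_succ_four k
      rw [← this]
      push_cast
      ring
    have hw := w_eq E k
    rw [h4, h3]
    linear_combination ih - (len k 3 : ℝ) * hw

theorem inv_w_le (E : Data) (k : ℕ) : 1 / E.w k ≤ len k 3 := by
  have h := area E k
  have hw := w_pos E k
  have hw1 := w_pos E (k + 1)
  have hM : (len k 4 : ℝ) ≤ len k 3 := by exact_mod_cast len_le k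
  rw [div_le_iff₀ hw]
  nlinarith

theorem len_ge (k : ℕ) : k + 1 ≤ len k 3 := by
  induction k with
  | zero => simp [len]
  | succ k ih =>
    have h := helper54.Rot.len_succ_three k
    have hN := NN_ge k
    have : 2 * len k 3 ≤ (NN k - 1) * len k 3 := Nat.mul_le_mul_right _ (by omega)
    omega

theorem log_w_le (E : Data) (k : ℕ) : -Real.log (E.w (k + 1) / 4) ≤ 1021 * len k 3 := by
  have hw := w_pos E (k + 1)
  have h1 := inv_w_le E (k + 1)
  have hL1 : (1 : ℝ) ≤ len k 3 := by
    have := len_ge k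
    exact_mod_cast (by omega : 1 ≤ len k 3)
  have hLk : (k : ℝ) + 1 ≤ len k 3 := by exact_mod_cast len_ge k
  have hN1 : (1 : ℝ) ≤ NN k := by
    have := NN_ge k
    exact_mod_cast (by omega : 1 ≤ NN k)
  have hlen : (len (k + 1) 3 : ℝ) ≤ NN k * len k 3 := by
    have h := helper54.Rot.len_succ_three k
    have hM := len_le k
    have hN := NN_ge k
    have e : NN k = (NN k - 1) + 1 := by omega
    have : len (k + 1) 3 ≤ NN k * len k 3 := by
      rw [e, add_mul]
      have e2 : NN k - 1 + 1 - 1 = NN k - 1 := by omega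
      rw [h]
      omega
    exact_mod_cast this
  have h2 : 4 / E.w (k + 1) ≤ 4 * (NN k * len k 3) := by
    have : 4 / E.w (k + 1) = 4 * (1 / E.w (k + 1)) := by ring
    rw [this]
    linarith
  have h3 : -Real.log (E.w (k + 1) / 4) = Real.log (4 / E.w (k + 1)) := by
    rw [← Real.log_inv, inv_div]
  rw [h3]
  have h4 := Real.log_le_log (by positivity) h2
  rw [Real.log_mul (by norm_num) (by positivity), Real.log_mul (by positivity) (by positivity)] at h4
  have h5 : Real.log 4 ≤ 3 := by
    have := Real.log_le_sub_one_of_pos (show (0 : ℝ) < 4 by norm_num)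
    linarith
  have h6 : Real.log (len k 3 : ℝ) ≤ len k 3 := by
    have := Real.log_le_sub_one_of_pos (show (0 : ℝ) < len k 3 by linarith)
    linarith
  have h7 : Real.log (NN k : ℝ) ≤ 999 + 8 * (k + 1) := by
    have e : (NN k : ℝ) = 1000 * ((k : ℝ) + 2) ^ 8 := by
      have : NN k = 1000 * (k + 2) ^ 8 := by unfold NN; rfl
      rw [this]
      push_cast
      ring
    rw [e, Real.log_mul (by norm_num) (by positivity), Real.log_pow]
    have a1 := Real.log_le_sub_one_of_pos (show (0 : ℝ) < 1000 by norm_num)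
    have a2 := Real.log_le_sub_one_of_pos (show (0 : ℝ) < (k : ℝ) + 2 by positivity)
    push_cast
    linarith
  linarith

/-! ### the cost -/

theorem sum_blocks (f : ℕ → ℝ) (L : ℕ) {B : ℝ} (h : ℕ)
    (hB : ∀ a < h, ∑ b ∈ Finset.range L, f (a * L + b) ≤ B) :
    ∑ i ∈ Finset.range (h * L), f i ≤ h * B := by
  induction h with
  | zero => simp
  | succ h ih =>
    rw [add_mul, one_mul, Finset.sum_range_add]
    have h1 := ih fun a ha => hB a (by omega)
    have h2 := hB h (by omega)
    push_cast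
    linarith

theorem cost_one (E : Data) (k : ℕ) {T : ℕ} (hT : T ≤ (HH k + 1) * len k 3) {r e : ℝ} (hr : 0 ≤ r)
    (hr2 : r ≤ 1 / 4) {n : ℤ} (he : e = T * E.al 0 + r * E.w (k + 1) + n) :
    ∑ i ∈ Finset.range (HH k * len k 3), -Real.log (nn (E.w (k + 1) * (1 / 2) + i * E.al 0 - e)) ≤
      HH k * (2058 * len k 3) := by
  apply sum_blocks
  intro a ha
  have hwk := w_pos E k
  have hw := w_pos E (k + 1)
  have hk1 := w_le_one E k
  have hw1 := w_succ_le E k
  have hlog := log_w_le E k
  have hinv := inv_w_le E k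
  have key := two_sided (len k 3)
    (fun b => E.w (k + 1) * (1 / 2) + ((a * len k 3 + b : ℕ) : ℝ) * E.al 0 - e)
    (s := E.w k / 2) (d := E.w (k + 1) / 4) (by positivity) (by linarith) (by positivity)
    (by linarith) ?_ ?_
  · have e8 : 8 / (E.w k / 2) = 16 * (1 / E.w k) := by
      field_simp
      norm_num
    rw [e8] at key
    calc _ ≤ _ := key
      _ ≤ 2058 * (len k 3 : ℝ) := by linarith
  · intro b hb
    apply dist_ge E k hT hr hr2 he
    calc a * len k 3 + b < a * len k 3 + len k 3 := by omega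
      _ = (a + 1) * len k 3 := by ring
      _ ≤ HH k * len k 3 := Nat.mul_le_mul_right _ (by omega)
  · intro b hb b' hb' hne
    have hgen : ∀ b b' : ℕ, b < len k 3 → b' < b → E.w k / 2 ≤ nn (((b : ℝ) - b') * E.al 0) := by
      intro b b' hb hlt
      have hs := (sep_aux E k).2 (b - b') (by omega) (by omega)
      rw [Nat.cast_sub hlt.le] at hs
      linarith
    have e1 : (E.w (k + 1) * (1 / 2) + ((a * len k 3 + b : ℕ) : ℝ) * E.al 0 - e) -
        (E.w (k + 1) * (1 / 2) + ((a * len k 3 + b' : ℕ) : ℝ) * E.al 0 - e) =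
        ((b : ℝ) - b') * E.al 0 := by
      push_cast
      ring
    simp only [e1]
    rcases lt_or_gt_of_ne hne with h | h
    · have := hgen b' b hb' h
      rw [← nn_neg]
      have e2 : -(((b : ℝ) - b') * E.al 0) = ((b' : ℝ) - b) * E.al 0 := by ring
      rwa [e2]
    · exact hgen b b' hb h

theorem lb_cost (E : Data) : ∃ C : ℝ, ∀ k : ℕ,
    (∀ i < HH k * len k 3, ∀ j, E.par.dlo (E.w (k + 1) * (1 / 2)) i j ≠ 0 ∧
      E.par.dhi (E.w (k + 1) * (1 / 2)) i j ≠ 0) ∧
    E.par.cost (E.w (k + 1) * (1 / 2)) (HH k * len k 3) ≤ C * (HH k * len k 3 : ℕ) := by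
  refine ⟨8232, fun k => ?_⟩
  -- the four end points
  have hc1 : ∀ k, 3 * mA k ≤ HH k := fun k => by unfold HH; omega
  have hc2 : ∀ k, 3 * mA k + ml k ≤ HH k := fun k => by unfold HH; omega
  have hc3 : ∀ k, 3 * mA k + ml k + 3 * mB k ≤ HH k := fun k => by unfold HH; omega
  obtain ⟨T0, hT0, n0, h0⟩ := rep E (fun _ => 0) (fun _ => 0) (fun k => Nat.zero_le _)
    (fun k => by simp) k
  obtain ⟨T1, hT1, n1, h1⟩ := rep E (fun k => 3 * mA k) E.bA hc1
    (fun k => by rw [E.bA_rec k]; push_cast; ring) k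
  obtain ⟨T2, hT2, n2, h2⟩ := rep E (fun k => 3 * mA k + ml k) (fun k => E.bA k + E.ga k) hc2
    (fun k => by rw [E.bA_rec k, E.ga_rec k]; push_cast; ring) k
  obtain ⟨T3, hT3, n3, h3⟩ := rep E (fun k => 3 * mA k + ml k + 3 * mB k)
    (fun k => E.bA k + E.ga k + E.bB k) hc3
    (fun k => by rw [E.bA_rec k, E.ga_rec k, E.bB_rec k]; push_cast; ring) k
  have b1 := E.bA_pos (k + 1)
  have b2 := E.ga_pos (k + 1)
  have b3 := E.bB_pos (k + 1)
  have b4 := E.small (k + 1)
  have hw := w_pos E (k + 1)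
  have dl0 : ∀ i, E.par.dlo (E.w (k + 1) * (1 / 2)) i 0 =
      nn (E.w (k + 1) * (1 / 2) + i * E.al 0 - 0) := fun i => norm_eq_nn _
  have dh0 : ∀ i, E.par.dhi (E.w (k + 1) * (1 / 2)) i 0 =
      nn (E.w (k + 1) * (1 / 2) + i * E.al 0 - E.bA 0) := fun i => norm_eq_nn _
  have dl1 : ∀ i, E.par.dlo (E.w (k + 1) * (1 / 2)) i 1 =
      nn (E.w (k + 1) * (1 / 2) + i * E.al 0 - (E.bA 0 + E.ga 0)) := fun i => norm_eq_nn _
  have dh1 : ∀ i, E.par.dhi (E.w (k + 1) * (1 / 2)) i 1 =
      nn (E.w (k + 1) * (1 / 2) + i * E.al 0 - (E.bA 0 + E.ga 0 + E.bB 0)) :=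
    fun i => norm_eq_nn _
  constructor
  · intro i hi j
    have g0 := dist_ge E k hT0 (r := 0) le_rfl (by norm_num) h0 hi
    have g1 := dist_ge E k hT1 (r := E.bA (k + 1)) b1.le (by linarith) h1 hi
    have g2 := dist_ge E k hT2 (r := E.bA (k + 1) + E.ga (k + 1)) (by linarith) (by linarith) h2 hi
    have g3 := dist_ge E k hT3 (r := E.bA (k + 1) + E.ga (k + 1) + E.bB (k + 1)) (by linarith)
      (by linarith) h3 hi
    fin_cases j
    · constructor
      · show E.par.dlo (E.w (k + 1) * (1 / 2)) i 0 ≠ 0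
        rw [dl0]
        intro hcon
        rw [hcon] at g0
        linarith
      · show E.par.dhi (E.w (k + 1) * (1 / 2)) i 0 ≠ 0
        rw [dh0]
        intro hcon
        rw [hcon] at g1
        linarith
    · constructor
      · show E.par.dlo (E.w (k + 1) * (1 / 2)) i 1 ≠ 0
        rw [dl1]
        intro hcon
        rw [hcon] at g2
        linarith
      · show E.par.dhi (E.w (k + 1) * (1 / 2)) i 1 ≠ 0
        rw [dh1]
        intro hcon
        rw [hcon] at g3
        linarith
  · have g0 := cost_one E k hT0 (r := 0) le_rfl (by norm_num) h0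
    have g1 := cost_one E k hT1 (r := E.bA (k + 1)) b1.le (by linarith) h1
    have g2 := cost_one E k hT2 (r := E.bA (k + 1) + E.ga (k + 1)) (by linarith) (by linarith) h2
    have g3 := cost_one E k hT3 (r := E.bA (k + 1) + E.ga (k + 1) + E.bB (k + 1)) (by linarith)
      (by linarith) h3
    have e : E.par.cost (E.w (k + 1) * (1 / 2)) (HH k * len k 3) =
        ∑ i ∈ Finset.range (HH k * len k 3), -Real.log (nn (E.w (k + 1) * (1 / 2) + i * E.al 0 - 0)) +
        ∑ i ∈ Finset.range (HH k * len k 3),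
          -Real.log (nn (E.w (k + 1) * (1 / 2) + i * E.al 0 - E.bA 0)) +
        ∑ i ∈ Finset.range (HH k * len k 3),
          -Real.log (nn (E.w (k + 1) * (1 / 2) + i * E.al 0 - (E.bA 0 + E.ga 0))) +
        ∑ i ∈ Finset.range (HH k * len k 3),
          -Real.log (nn (E.w (k + 1) * (1 / 2) + i * E.al 0 - (E.bA 0 + E.ga 0 + E.bB 0))) := by
      rw [← Finset.sum_add_distrib, ← Finset.sum_add_distrib, ← Finset.sum_add_distrib]
      unfold Par.cost
      apply Finset.sum_congr rfl
      intro i _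
      rw [Fin.sum_univ_two, dl0, dh0, dl1, dh1]
      ring
    rw [e]
    push_cast
    linarith

end Pool.Agent.helper30.Rot
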